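import Pool.Agent.Helper66K9.LSH.Fin
import Pool.Agent.TH496.LS_MOD
import Pool.Agent.TH889.LS_W
import Pool.Agent.TH889.LS_DUAL
set_option autoImplicit false

/-! # Local smoothing for data with block symmetry

The estimate of Q1 for all data on `ℝ^d` which are invariant under the rotations of `k ≥ 1` mutually
orthogonal subspaces of the same odd dimension `m = 2ℓ + 1 ≥ 3`, i.e. which only depend on the `k`
lengths of the components in these subspaces and on the other `n = d - mk` coordinates. There is no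
other condition on the data (no condition on the support, no regularity; the constant does not
depend on the centre and the position of the subspaces). The estimate holds for all `p > 2` with a
loss of any `s > s_p - min(1, kℓ(p-2))/p` derivatives, `s_p = (d-1)(1/2 - 1/p)`. Hence for these data
the full range `σ < 1/p` of the conjecture is obtained for all `p ≥ 2 + 1/(kℓ)`, i.e. (for `k = 1`)
for all `p ≥ 2m/(m-1)`, the conjectured range of exponents in dimension `m`. If `n ≤ k(m-2)` then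
this contains exponents `p < 2(d+1)/(d-1)` for which the conjecture is open, and for all
`2 < p < 2(d+1)/(d-1)` the loss is smaller than the loss `s_p - (d-1)(p-2)/(4p)` which follows by
interpolation from the known sharp estimate at `p = 2(d+1)/(d-1)`.
-/

open MeasureTheory Set
open scoped ENNReal FourierTransform RealInnerProductSpace

namespace Pool.Agent.Results.MP_ee74d2_an.BlockRadialData

/-- `ℝ^d` -/
abbrev E (d : ℕ) : Type := EuclideanSpace ℝ (Fin d)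

/-- Data with block symmetry: `f` is a Borel function on `ℝ^d` and for some orthonormal basis
`v_{i,a}` (`i < k`, `a < 2ℓ+1`), `v_j` (`j < n`) and some centre `c`, the value of `f` at
`c + Σ_i Σ_a y_{i,a} v_{i,a} + Σ_j x_j v_j` is a function `F(|y_1|, …, |y_k|, x_1, …, x_n)` of the
lengths of the vectors `y_i ∈ ℝ^(2ℓ+1)` and of `x ∈ ℝ^n`. (Such a basis exists only if
`d = (2ℓ+1)k + n`.) -/
def BlockData (k ℓ n d : ℕ) (f : E d → ℂ) : Prop :=
  Measurable f ∧ ∃ (v : OrthonormalBasis ((Fin k × Fin (2 * ℓ + 1)) ⊕ Fin n) ℝ (E d)) (c : E d)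
    (F : (Fin k → ℝ) → (Fin n → ℝ) → ℂ),
    ∀ (y : Fin k → E (2 * ℓ + 1)) (x : Fin n → ℝ),
      f (c + (∑ i, ∑ a, y i a • v (Sum.inl (i, a)) + ∑ j, x j • v (Sum.inr j))) =
        F (fun i => ‖y i‖) x

/-- The symbol `(1 + 4π²|ζ|²)^(a/2)` of `(I - Δ)^(a/2)`. -/
noncomputable def bessel {d : ℕ} (a : ℝ) (ζ : E d) : ℝ :=
  (1 + 4 * Real.pi ^ 2 * ‖ζ‖ ^ 2) ^ (a / 2)

/-- For `τ = 0`: the solution `u(t, z)` of the wave equation on `ℝ^d` with data
`u(0) = (I - Δ)^(-s/2) f₀`, `∂ₜu(0) = (I - Δ)^((1-s)/2) f₁`, i.e. the inverse Fourier transform of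
`cos(2πt|ζ|) (1+4π²|ζ|²)^(-s/2) f₀^(ζ) + sin(2πt|ζ|)/(2π|ζ|) (1+4π²|ζ|²)^((1-s)/2) f₁^(ζ)`.
For `τ > 0`: the same with the factor `exp(-τ|ζ|²)` (the solution regularised by the heat flow). -/
noncomputable def wave {d : ℕ} (s τ : ℝ) (f₀ f₁ : E d → ℂ) (t : ℝ) (z : E d) : ℂ :=
  ∫ ζ : E d, Complex.exp (((2 * Real.pi * ⟪z, ζ⟫ : ℝ) : ℂ) * Complex.I) *
    (((Real.exp (-(τ * ‖ζ‖ ^ 2)) : ℝ) : ℂ) *
      (((Real.cos (2 * Real.pi * (t * ‖ζ‖)) * bessel (-s) ζ : ℝ) : ℂ) * 𝓕 f₀ ζ +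
       ((Real.sin (2 * Real.pi * (t * ‖ζ‖)) / (2 * Real.pi * ‖ζ‖) * bessel (1 - s) ζ : ℝ) : ℂ) *
        𝓕 f₁ ζ))

/-- The estimate for data in the class `D`: there is a constant `C` such that for all integrable
`f₀, f₁` in `D` and all `0 ≤ τ ≤ 1`, where for `τ = 0` we assume that `(I - Δ)^(-s/2) f₀` and
`(I - Δ)^(-s/2) f₁` have integrable Fourier transforms (this holds for Schwartz functions),
`∫_1^2 ‖u(t)‖_p^p dt ≤ C (‖f₀‖_p^p + ‖f₁‖_p^p)`. -/
def Estimate {d : ℕ} (s p : ℝ) (D : (E d → ℂ) → Prop) : Prop :=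
  ∃ C : ℝ, 0 < C ∧ ∀ f₀ f₁ : E d → ℂ, Integrable f₀ → Integrable f₁ → D f₀ → D f₁ →
    ∀ τ : ℝ, 0 ≤ τ → τ ≤ 1 →
    (0 < τ ∨ (Integrable (fun ζ => ((bessel (-s) ζ : ℝ) : ℂ) * 𝓕 f₀ ζ) ∧
      Integrable (fun ζ => ((bessel (-s) ζ : ℝ) : ℂ) * 𝓕 f₁ ζ))) →
    ∫⁻ t in Icc (1 : ℝ) 2, ∫⁻ z, ‖wave s τ f₀ f₁ t z‖ₑ ^ p ≤
      ENNReal.ofReal C * ((∫⁻ z, ‖f₀ z‖ₑ ^ p) + ∫⁻ z, ‖f₁ z‖ₑ ^ p)

/-- **Local smoothing for data with block symmetry.** Let `d = (2ℓ+1)k + n` with `k ≥ 1`, `ℓ ≥ 1`,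
let `p > 2`, `s > 0` and `s p > (d-1)(p-2)/2 - min(1, kℓ(p-2))`. Then the estimate holds for the
data with `k` blocks of dimension `2ℓ+1`. -/
theorem result (k ℓ n d : ℕ) (hk : 1 ≤ k) (hℓ : 1 ≤ ℓ) (hd : d = (2 * ℓ + 1) * k + n)
    (p s : ℝ) (hp : 2 < p) (hs : 0 < s)
    (hsp : ((d : ℝ) - 1) * (p - 2) / 2 - min 1 (k * ℓ * (p - 2)) < s * p) :
    Estimate s p (BlockData k ℓ n d) := by
  open Pool.Agent.TH280.LS in
  have hW : S_W := Pool.Agent.TH889.W.w_thm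
  have hDUAL : S_DUAL := Pool.Agent.TH889.DUAL.dual_thm Pool.Agent.TH496.MOD.mod_thm hW
  have hd1 : 1 ≤ d := by
    rw [hd]
    nlinarith
  obtain ⟨m, rfl⟩ : ∃ m, d = m + 1 := ⟨d - 1, by omega⟩
  have hone : OneD m s p (Pool.Agent.Helper66K9.LSH.AllBlock k ℓ n (m + 1)) :=
    Pool.Agent.Helper66K9.LSH.block_one_H hDUAL hW k ℓ n m hk hℓ hd s p hs hp hsp
  obtain ⟨C, hC, h⟩ := wv_all m s p (Pool.Agent.Helper66K9.LSH.AllBlock k ℓ n (m + 1))
    hone hs hp.le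
  refine ⟨C, hC, ?_⟩
  intro f₀ f₁ h0 h1 hc0 hc1 τ hτ hτ1 hcase
  have hneg : -s / 2 = -(s / 2) := by ring
  have key := h f₀ f₁ h0 h1 hc0 hc1 τ hτ hτ1 (by
    unfold bessel at hcase
    rw [hneg] at hcase
    exact hcase)
  have hw : ∀ t z, wave s τ f₀ f₁ t z = wv (m + 1) s τ f₀ f₁ t z := by
    intro t z
    unfold wave wv bessel e
    rw [hneg]
  simp only [hw]
  exact key

end Pool.Agent.Results.MP_ee74d2_an.BlockRadialData
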